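import Pool.Agent.J4.H53.PM.Tr

set_option autoImplicit false

/-! # The sets of all matrices and of all matrices of determinant one are spread -/

namespace Pool.Agent.J4.H53.PM

open Finset Matrix

variable {p : ℕ} [Fact p.Prime] {n : ℕ}

/-- all matrices of determinant one -/
def SLn (n p : ℕ) [Fact p.Prime] : Finset (Matrix (Fin n) (Fin n) (ZMod p)) :=
  univ.filter (fun x => x.det = 1)

/-- all matrices -/
def Mn (n p : ℕ) [Fact p.Prime] : Finset (Matrix (Fin n) (Fin n) (ZMod p)) := univ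

lemma exists_entry (M : Matrix (Fin n) (Fin n) (ZMod p)) (hM : M ≠ 0) : ∃ i j, M i j ≠ 0 := by
  by_contra h
  push Not at h
  exact hM (Matrix.ext h)

/-- transposition -/
lemma right_of_left (K : ℝ) (X : Finset (Matrix (Fin n) (Fin n) (ZMod p))) (hX : ∀ x ∈ X, xᵀ ∈ X)
    (h : ∀ M : Matrix (Fin n) (Fin n) (ZMod p), M ≠ 0 → ∀ c : Matrix (Fin n) (Fin n) (ZMod p),
      ((X.filter (fun x => M * x = c)).card : ℝ) * (p : ℝ) ^ n ≤ K * X.card) :
    ∀ M : Matrix (Fin n) (Fin n) (ZMod p), M ≠ 0 → ∀ c : Matrix (Fin n) (Fin n) (ZMod p),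
      ((X.filter (fun x => x * M = c)).card : ℝ) * (p : ℝ) ^ n ≤ K * X.card := by
  intro M hM c
  refine le_trans ?_ (h Mᵀ (fun h0 => hM (by rw [← Matrix.transpose_transpose M, h0, Matrix.transpose_zero])) cᵀ)
  apply mul_le_mul_of_nonneg_right _ (by positivity)
  refine Nat.cast_le.2 (card_le_card_of_injOn Matrix.transpose ?_ ?_)
  · intro x hx
    rw [mem_coe, mem_filter] at hx ⊢
    exact ⟨hX x hx.1, by rw [← Matrix.transpose_mul, hx.2]⟩
  · intro x _ y _ hxy
    exact Matrix.transpose_injective hxy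

/-- all matrices -/
theorem spread_Mn (n p : ℕ) [Fact p.Prime] : Spread 1 (Mn n p) := by
  have hleft : ∀ M : Matrix (Fin n) (Fin n) (ZMod p), M ≠ 0 → ∀ c : Matrix (Fin n) (Fin n) (ZMod p),
    (((Mn n p).filter (fun x => M * x = c)).card : ℝ) * (p : ℝ) ^ n ≤ 1 * (Mn n p).card := by
    intro M hM c
    obtain ⟨i, j, hij⟩ := exists_entry M hM
    have h1 : ((Mn n p).filter (fun x => M * x = c)).card * p ^ n ≤ (Mn n p).card := by
      have h2 : p ^ n = (univ : Finset (Fin n → ZMod p)).card := by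
        rw [card_univ, Fintype.card_pi_const, ZMod.card]
      rw [h2, ← card_product]
      refine card_le_card_of_injOn
        (fun z => z.1 + Matrix.vecMulVec (Pi.single j (M i j)⁻¹) z.2) (fun _ _ => mem_univ _) ?_
      intro z hz z' hz' h
      rw [mem_coe, mem_product, mem_filter] at hz hz'
      have e : ∀ w : Fin n → ZMod p, ∀ b, (M * Matrix.vecMulVec (Pi.single j (M i j)⁻¹) w) i b = w b := by
        intro w b
        rw [Matrix.mul_vecMulVec, Matrix.vecMulVec_apply, Matrix.mulVec_single]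
        simp [mul_inv_cancel₀ hij]
      have h' : z.1 + Matrix.vecMulVec (Pi.single j (M i j)⁻¹) z.2 =
          z'.1 + Matrix.vecMulVec (Pi.single j (M i j)⁻¹) z'.2 := h
      have h3 : z.2 = z'.2 := by
        funext b
        have h4 : (M * (z.1 + Matrix.vecMulVec (Pi.single j (M i j)⁻¹) z.2)) i b =
            (M * (z'.1 + Matrix.vecMulVec (Pi.single j (M i j)⁻¹) z'.2)) i b := by rw [h']
        rw [Matrix.mul_add, Matrix.mul_add, Matrix.add_apply, Matrix.add_apply, e, e, hz.1.2, hz'.1.2] at h4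
        exact add_left_cancel h4
      have h5 : z.1 = z'.1 := by
        rw [h3] at h'
        exact add_right_cancel h'
      exact Prod.ext h5 h3
    rw [one_mul]
    exact_mod_cast h1
  refine ⟨le_rfl, hleft, right_of_left 1 _ (fun _ _ => mem_univ _) hleft, ?_⟩
  intro N hN
  obtain ⟨i, j, hij⟩ := exists_entry N hN
  have h1 : ∑ x ∈ Mn n p, (ZMod.stdAddChar (trace (N * x)) : ℂ) = 0 := by
    set φ : Matrix (Fin n) (Fin n) (ZMod p) →+ ZMod p :=
      { toFun := fun x => trace (N * x)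
        map_zero' := by simp
        map_add' := fun x y => by rw [Matrix.mul_add, Matrix.trace_add] } with hφ
    set ψ : AddChar (Matrix (Fin n) (Fin n) (ZMod p)) ℂ := (ZMod.stdAddChar (N := p)).compAddMonoidHom φ with hψ
    have h2 : ψ ≠ 1 := by
      intro h
      have h3 := DFunLike.congr_fun h (Matrix.single j i 1)
      have h4 : ψ (Matrix.single j i 1) = (ZMod.stdAddChar (N i j) : ℂ) := by
        rw [hψ, AddChar.compAddMonoidHom_apply]
        congr 1
        show trace (N * Matrix.single j i 1) = N i j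
        rw [Matrix.trace_mul_comm]
        simp [Matrix.trace_single_mul]
      rw [h4, AddChar.one_apply] at h3
      have h5 : (ZMod.stdAddChar (N i j) : ℂ) = ZMod.stdAddChar (0 : ZMod p) := by
        rw [h3, AddChar.map_zero_eq_one]
      exact hij (ZMod.injective_stdAddChar h5)
    exact AddChar.sum_eq_zero_of_ne_one h2
  rw [h1, norm_zero, zero_mul]
  positivity

lemma mem_SLn {x : Matrix (Fin n) (Fin n) (ZMod p)} : x ∈ SLn n p ↔ x.det = 1 := by
  unfold SLn
  rw [mem_filter]
  exact ⟨fun h => h.2, fun h => ⟨mem_univ _, h⟩⟩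

/-- the matrices of determinant one with `r x = w` -/
lemma fib_SLn (hn : 2 ≤ n) (r : Fin n → ZMod p) (hr : r ≠ 0) (w : Fin n → ZMod p) :
    (((SLn n p).filter (fun x => r ᵥ* x = w)).card : ℝ) * (p : ℝ) ^ n ≤ 2 * (SLn n p).card := by
  have hp2 := (Fact.out : p.Prime).two_le
  by_cases hw : w = 0
  · rw [filter_eq_empty_iff.2]
    · simp
    · intro x hx h
      rw [mem_SLn] at hx
      rw [hw] at h
      apply hr
      have hu : IsUnit x.det := by rw [hx]; exact isUnit_one
      have h1 : r ᵥ* x ᵥ* x⁻¹ = r := by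
        rw [Matrix.vecMul_vecMul, Matrix.mul_nonsing_inv _ hu, Matrix.vecMul_one]
      rw [← h1, h, Matrix.zero_vecMul]
  · have h1 : ∀ w' : Fin n → ZMod p, w' ≠ 0 → ((SLn n p).filter (fun x => r ᵥ* x = w)).card ≤
        ((SLn n p).filter (fun x => r ᵥ* x = w')).card := by
      intro w' hw'
      obtain ⟨g, hg1, hg2⟩ := trans_row hn w w' hw hw'
      refine card_le_card_of_injOn (fun x => x * g) ?_ ?_
      · intro x hx
        rw [mem_coe, mem_filter, mem_SLn] at hx ⊢
        refine ⟨by rw [Matrix.det_mul, hx.1, hg1, one_mul], ?_⟩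
        rw [← Matrix.vecMul_vecMul, hx.2, hg2]
      · intro x _ y _ hxy
        have hu : IsUnit g.det := by rw [hg1]; exact isUnit_one
        have h2 : x * g * g⁻¹ = y * g * g⁻¹ := by
          have : x * g = y * g := hxy
          rw [this]
        rwa [Matrix.mul_assoc, Matrix.mul_assoc, Matrix.mul_nonsing_inv _ hu, Matrix.mul_one,
          Matrix.mul_one] at h2
    have h2 : ((SLn n p).filter (fun x => r ᵥ* x = w)).card * (p ^ n - 1) ≤ (SLn n p).card := by
      have h3 : (SLn n p).card = ∑ w' : Fin n → ZMod p, ((SLn n p).filter (fun x => r ᵥ* x = w')).card := by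
        rw [card_eq_sum_card_fiberwise (f := fun x => r ᵥ* x) (t := univ)]
        intro x _
        exact mem_univ _
      rw [h3]
      have h4 : ∑ w' ∈ (univ : Finset (Fin n → ZMod p)).erase 0,
          ((SLn n p).filter (fun x => r ᵥ* x = w')).card ≤
          ∑ w' : Fin n → ZMod p, ((SLn n p).filter (fun x => r ᵥ* x = w')).card :=
        sum_le_sum_of_subset (subset_univ _)
      refine le_trans ?_ h4
      have h5 : (((univ : Finset (Fin n → ZMod p)).erase 0).card) = p ^ n - 1 := by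
        rw [card_erase_of_mem (mem_univ _), card_univ, Fintype.card_pi_const, ZMod.card]
      rw [← h5, mul_comm, ← smul_eq_mul, ← sum_const]
      exact sum_le_sum fun w' hw' => h1 w' (ne_of_mem_erase hw')
    have h6 : p ^ n ≤ 2 * (p ^ n - 1) := by
      have : 2 ≤ p ^ n := by
        calc 2 ≤ p := hp2
          _ = p ^ 1 := (pow_one p).symm
          _ ≤ p ^ n := Nat.pow_le_pow_right (by omega) (by omega)
      omega
    have h7 : ((SLn n p).filter (fun x => r ᵥ* x = w)).card * p ^ n ≤ 2 * (SLn n p).card := by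
      calc ((SLn n p).filter (fun x => r ᵥ* x = w)).card * p ^ n
          ≤ ((SLn n p).filter (fun x => r ᵥ* x = w)).card * (2 * (p ^ n - 1)) := Nat.mul_le_mul_left _ h6
        _ = 2 * (((SLn n p).filter (fun x => r ᵥ* x = w)).card * (p ^ n - 1)) := by ring
        _ ≤ _ := Nat.mul_le_mul_left _ h2
    exact_mod_cast h7

lemma det_shear (i : Fin n) (u : Fin n → ZMod p) (hu : u i = 0) :
    (1 + Matrix.vecMulVec u (Pi.single i 1) : Matrix (Fin n) (Fin n) (ZMod p)).det = 1 := by
  rw [Matrix.vecMulVec_eq Unit, Matrix.det_one_add_replicateCol_mul_replicateRow]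
  simp [hu]

/-- the Fourier coefficients of the set of the matrices of determinant one -/
lemma four_SLn (hn : 2 ≤ n) (N : Matrix (Fin n) (Fin n) (ZMod p)) (hN : N ≠ 0) :
    ‖∑ x ∈ SLn n p, (ZMod.stdAddChar (trace (N * x)) : ℂ)‖ * (p : ℝ) ^ n ≤ 2 * p * (SLn n p).card := by
  classical
  have hp0 : (0 : ℝ) < p := by exact_mod_cast (Fact.out : p.Prime).pos
  obtain ⟨i, j, hij⟩ := exists_entry N hN
  have hr : N i ≠ 0 := fun h => hij (by rw [h]; rfl)
  -- the vector with the component `i` removed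
  set z : (Fin n → ZMod p) → (Fin n → ZMod p) := fun u k => if k = i then 0 else u k with hz
  set U : (Fin n → ZMod p) → Matrix (Fin n) (Fin n) (ZMod p) := fun u =>
    1 + Matrix.vecMulVec (z u) (Pi.single i 1) with hU
  have hUd : ∀ u, (U u).det = 1 := fun u => det_shear i (z u) (by simp [hz])
  have h1 : ∀ u : Fin n → ZMod p, ∑ x ∈ SLn n p, (ZMod.stdAddChar (trace (N * x)) : ℂ) =
      ∑ x ∈ SLn n p, (ZMod.stdAddChar (trace (N * (x * U u))) : ℂ) := by
    intro u
    symm
    refine sum_nbij' (fun x => x * U u) (fun x => x * (U u)⁻¹) ?_ ?_ ?_ ?_ ?_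
    · intro x hx
      rw [mem_SLn] at hx ⊢
      rw [Matrix.det_mul, hx, hUd, one_mul]
    · intro x hx
      rw [mem_SLn] at hx ⊢
      rw [Matrix.det_mul, hx, Matrix.det_nonsing_inv, hUd, Ring.inverse_one, one_mul]
    · intro x _
      rw [Matrix.mul_assoc, Matrix.mul_nonsing_inv _ (by rw [hUd]; exact isUnit_one), Matrix.mul_one]
    · intro x _
      rw [Matrix.mul_assoc, Matrix.nonsing_inv_mul _ (by rw [hUd]; exact isUnit_one), Matrix.mul_one]
    · intro x _
      rfl
  have h2 : ∀ (u : Fin n → ZMod p) (x : Matrix (Fin n) (Fin n) (ZMod p)),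
      trace (N * (x * U u)) = trace (N * x) + ∑ k, z (N i ᵥ* x) k * u k := by
    intro u x
    have e1 : N * (x * U u) = N * x + Matrix.vecMulVec ((N * x) *ᵥ z u) (Pi.single i 1) := by
      rw [hU]
      simp only
      rw [Matrix.mul_add, Matrix.mul_one, Matrix.mul_add, Matrix.mul_vecMulVec, Matrix.mul_vecMulVec,
        Matrix.mulVec_mulVec]
    rw [e1, Matrix.trace_add]
    congr 1
    rw [Matrix.trace_vecMulVec, dotProduct_single, mul_one]
    rw [Matrix.mulVec, dotProduct]
    refine sum_congr rfl fun k _ => ?_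
    rw [hz]
    simp only
    by_cases hk : k = i
    · rw [if_pos hk, if_pos hk, mul_zero, zero_mul]
    · rw [if_neg hk, if_neg hk]
      congr 1
  have h3 : (p : ℂ) ^ n * ∑ x ∈ SLn n p, (ZMod.stdAddChar (trace (N * x)) : ℂ) =
      ∑ x ∈ SLn n p, (ZMod.stdAddChar (trace (N * x)) : ℂ) *
        ∑ u : Fin n → ZMod p, (ZMod.stdAddChar (∑ k, z (N i ᵥ* x) k * u k) : ℂ) := by
    have e2 : (p : ℂ) ^ n * ∑ x ∈ SLn n p, (ZMod.stdAddChar (trace (N * x)) : ℂ) =
        ∑ u : Fin n → ZMod p, ∑ x ∈ SLn n p, (ZMod.stdAddChar (trace (N * (x * U u))) : ℂ) := by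
      rw [← sum_congr rfl fun u _ => h1 u, sum_const, card_univ, Fintype.card_pi_const, ZMod.card,
        nsmul_eq_mul]
      push_cast
      rfl
    rw [e2, sum_comm]
    refine sum_congr rfl fun x _ => ?_
    rw [mul_sum]
    refine sum_congr rfl fun u _ => ?_
    rw [h2, AddChar.map_add_eq_mul]
  have h4 : ∀ w : Fin n → ZMod p, w ≠ 0 →
      ∑ u : Fin n → ZMod p, (ZMod.stdAddChar (∑ k, w k * u k) : ℂ) = 0 := by
    intro w hw
    obtain ⟨l, hl⟩ : ∃ l, w l ≠ 0 := by
      by_contra h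
      push Not at h
      exact hw (funext h)
    set φ : (Fin n → ZMod p) →+ ZMod p :=
      { toFun := fun u => ∑ k, w k * u k
        map_zero' := by simp
        map_add' := fun x y => by simp [mul_add, sum_add_distrib] } with hφ
    set ψ : AddChar (Fin n → ZMod p) ℂ := (ZMod.stdAddChar (N := p)).compAddMonoidHom φ with hψ
    have h5 : ψ ≠ 1 := by
      intro h
      have h6 := DFunLike.congr_fun h (Pi.single l 1)
      have h7 : ψ (Pi.single l 1) = (ZMod.stdAddChar (w l) : ℂ) := by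
        rw [hψ, AddChar.compAddMonoidHom_apply]
        congr 1
        show ∑ k, w k * (Pi.single l 1 : Fin n → ZMod p) k = w l
        simp [Pi.single_apply]
      rw [h7, AddChar.one_apply] at h6
      have h8 : (ZMod.stdAddChar (w l) : ℂ) = ZMod.stdAddChar (0 : ZMod p) := by
        rw [h6, AddChar.map_zero_eq_one]
      exact hl (ZMod.injective_stdAddChar h8)
    exact AddChar.sum_eq_zero_of_ne_one h5
  have h5 : ‖∑ x ∈ SLn n p, (ZMod.stdAddChar (trace (N * x)) : ℂ)‖ * (p : ℝ) ^ n ≤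
      (p : ℝ) ^ n * ((SLn n p).filter (fun x => z (N i ᵥ* x) = 0)).card := by
    have e3 : ‖∑ x ∈ SLn n p, (ZMod.stdAddChar (trace (N * x)) : ℂ)‖ * (p : ℝ) ^ n =
        ‖(p : ℂ) ^ n * ∑ x ∈ SLn n p, (ZMod.stdAddChar (trace (N * x)) : ℂ)‖ := by
      rw [norm_mul, norm_pow, Complex.norm_natCast, mul_comm]
    rw [e3, h3]
    refine (norm_sum_le _ _).trans ?_
    have h6 : ∀ x ∈ SLn n p, ‖(ZMod.stdAddChar (trace (N * x)) : ℂ) *
        ∑ u : Fin n → ZMod p, (ZMod.stdAddChar (∑ k, z (N i ᵥ* x) k * u k) : ℂ)‖ ≤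
        if z (N i ᵥ* x) = 0 then (p : ℝ) ^ n else 0 := by
      intro x _
      rw [norm_mul, norm_e, one_mul]
      split_ifs with h7
      · refine (norm_sum_le _ _).trans ?_
        simp_rw [norm_e]
        rw [sum_const, card_univ, Fintype.card_pi_const, ZMod.card, nsmul_eq_mul, mul_one]
        push_cast
        exact le_rfl
      · rw [h4 _ h7, norm_zero]
    refine (sum_le_sum h6).trans ?_
    rw [← sum_filter, sum_const, nsmul_eq_mul, mul_comm]
  have hpn : (0 : ℝ) < (p : ℝ) ^ n := by positivity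
  have h6 : (((SLn n p).filter (fun x => z (N i ᵥ* x) = 0)).card : ℝ) * (p : ℝ) ^ n ≤
      2 * p * (SLn n p).card := by
    have h7 : (SLn n p).filter (fun x => z (N i ᵥ* x) = 0) ⊆
        (univ : Finset (ZMod p)).biUnion
          (fun l => (SLn n p).filter (fun x => N i ᵥ* x = Pi.single i l)) := by
      intro x hx
      rw [mem_filter] at hx
      rw [mem_biUnion]
      refine ⟨(N i ᵥ* x) i, mem_univ _, ?_⟩
      rw [mem_filter]
      refine ⟨hx.1, ?_⟩
      funext k
      by_cases hk : k = i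
      · rw [hk, Pi.single_eq_same]
      · rw [Pi.single_eq_of_ne hk]
        have := congrFun hx.2 k
        rw [hz] at this
        simp only [if_neg hk, Pi.zero_apply] at this
        exact this
    have h8 : (((SLn n p).filter (fun x => z (N i ᵥ* x) = 0)).card : ℝ) ≤
        ∑ l : ZMod p, (((SLn n p).filter (fun x => N i ᵥ* x = Pi.single i l)).card : ℝ) := by
      exact_mod_cast (card_le_card h7).trans card_biUnion_le
    calc (((SLn n p).filter (fun x => z (N i ᵥ* x) = 0)).card : ℝ) * (p : ℝ) ^ n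
        ≤ (∑ l : ZMod p, (((SLn n p).filter (fun x => N i ᵥ* x = Pi.single i l)).card : ℝ)) *
          (p : ℝ) ^ n := mul_le_mul_of_nonneg_right h8 hpn.le
      _ = ∑ l : ZMod p, (((SLn n p).filter (fun x => N i ᵥ* x = Pi.single i l)).card : ℝ) *
          (p : ℝ) ^ n := by rw [sum_mul]
      _ ≤ ∑ _l : ZMod p, 2 * ((SLn n p).card : ℝ) := sum_le_sum fun l _ => fib_SLn hn _ hr _
      _ = 2 * p * (SLn n p).card := by
          rw [sum_const, card_univ, ZMod.card, nsmul_eq_mul]
          ring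
  calc _ ≤ _ := h5
    _ = (((SLn n p).filter (fun x => z (N i ᵥ* x) = 0)).card : ℝ) * (p : ℝ) ^ n := mul_comm _ _
    _ ≤ _ := h6

/-- **The set of the matrices of determinant one is spread.** -/
theorem spread_SLn (hn : 2 ≤ n) : Spread 2 (SLn n p) := by
  have hp1 : (1 : ℝ) ≤ p := by exact_mod_cast (Fact.out : p.Prime).one_le
  have hp0 : (0 : ℝ) < p := by linarith
  have hleft : ∀ M : Matrix (Fin n) (Fin n) (ZMod p), M ≠ 0 → ∀ c : Matrix (Fin n) (Fin n) (ZMod p),
    (((SLn n p).filter (fun x => M * x = c)).card : ℝ) * (p : ℝ) ^ n ≤ 2 * (SLn n p).card := by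
    intro M hM c
    obtain ⟨i, j, hij⟩ := exists_entry M hM
    have hr : M i ≠ 0 := fun h => hij (by rw [h]; rfl)
    refine le_trans ?_ (fib_SLn hn (M i) hr (c i))
    apply mul_le_mul_of_nonneg_right _ (by positivity)
    refine Nat.cast_le.2 (card_le_card ?_)
    intro x hx
    rw [mem_filter] at hx ⊢
    refine ⟨hx.1, ?_⟩
    rw [← hx.2]
    rfl
  refine ⟨one_le_two, hleft, right_of_left 2 _ (fun x hx => ?_) hleft, ?_⟩
  · rw [mem_SLn] at hx ⊢
    rw [Matrix.det_transpose, hx]
  · intro N hN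
    have h1 := four_SLn hn N hN
    have hs0 : 0 < Real.sqrt ((p : ℝ) ^ n) := Real.sqrt_pos.2 (by positivity)
    have hs : Real.sqrt ((p : ℝ) ^ n) * Real.sqrt ((p : ℝ) ^ n) = (p : ℝ) ^ n :=
      Real.mul_self_sqrt (by positivity)
    have hsp : (p : ℝ) ≤ Real.sqrt ((p : ℝ) ^ n) := by
      apply Real.le_sqrt_of_sq_le
      exact pow_le_pow_right₀ hp1 hn
    rw [← hs] at h1
    have h2 : ‖∑ x ∈ SLn n p, (ZMod.stdAddChar (trace (N * x)) : ℂ)‖ * Real.sqrt ((p : ℝ) ^ n) *
        Real.sqrt ((p : ℝ) ^ n) ≤ 2 * (SLn n p).card * Real.sqrt ((p : ℝ) ^ n) := by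
      calc _ = ‖∑ x ∈ SLn n p, (ZMod.stdAddChar (trace (N * x)) : ℂ)‖ *
            (Real.sqrt ((p : ℝ) ^ n) * Real.sqrt ((p : ℝ) ^ n)) := by ring
        _ ≤ 2 * p * (SLn n p).card := h1
        _ = 2 * (SLn n p).card * p := by ring
        _ ≤ _ := mul_le_mul_of_nonneg_left hsp (by positivity)
    exact le_of_mul_le_mul_right h2 hs0

end Pool.Agent.J4.H53.PM
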