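import Pool.Agent.J4.H53.PM.Spread

set_option autoImplicit false

/-! # Partial products -/

namespace Pool.Agent.J4.H53.PM

open Finset Matrix

set_option linter.unusedSectionVars false

variable {p : ℕ} [Fact p.Prime] {n : ℕ}

/-- the product of the first `m` matrices of the family `a` -/
def prodTake {k : ℕ} (a : Fin k → Matrix (Fin n) (Fin n) (ZMod p)) (m : ℕ) : Matrix (Fin n) (Fin n) (ZMod p) :=
  ((List.ofFn a).take m).prod

lemma prodTake_zero {k : ℕ} (a : Fin k → Matrix (Fin n) (Fin n) (ZMod p)) : prodTake a 0 = 1 := by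
  simp [prodTake]

lemma prodTake_cons {k : ℕ} (x : Matrix (Fin n) (Fin n) (ZMod p)) (a : Fin k → Matrix (Fin n) (Fin n) (ZMod p))
    (m : ℕ) : prodTake (Fin.cons x a : Fin (k + 1) → Matrix (Fin n) (Fin n) (ZMod p)) (m + 1) =
      x * prodTake a m := by
  unfold prodTake
  rw [List.ofFn_cons]
  simp

/-- sums over products of sets -/
lemma sum_cons {k : ℕ} {R : Type} [AddCommMonoid R]
    (A : Fin (k + 1) → Finset (Matrix (Fin n) (Fin n) (ZMod p)))
    (F : (Fin (k + 1) → Matrix (Fin n) (Fin n) (ZMod p)) → R) :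
    ∑ a ∈ Fintype.piFinset A, F a =
      ∑ b ∈ Fintype.piFinset (fun i => A i.succ), ∑ x ∈ A 0, F (Fin.cons x b) := by
  rw [sum_comm, ← sum_product']
  refine sum_nbij' (fun f => (f 0, Fin.tail f)) (fun z => Fin.cons z.1 z.2) ?_ ?_ ?_ ?_ ?_
  · intro f hf
    rw [Fintype.mem_piFinset] at hf
    rw [mem_product, Fintype.mem_piFinset]
    exact ⟨hf 0, fun i => hf i.succ⟩
  · intro z hz
    rw [mem_product, Fintype.mem_piFinset] at hz
    rw [Fintype.mem_piFinset]
    intro i
    refine Fin.cases ?_ (fun j => ?_) i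
    · exact hz.1
    · exact hz.2 j
  · intro f _
    exact Fin.cons_self_tail f
  · intro z _
    simp
  · intro f _
    rw [Fin.cons_self_tail]

lemma card_pi {k : ℕ} (A : Fin (k + 1) → Finset (Matrix (Fin n) (Fin n) (ZMod p))) :
    (Fintype.piFinset A).card = (A 0).card * (Fintype.piFinset (fun i : Fin k => A i.succ)).card := by
  rw [Fintype.card_piFinset, Fintype.card_piFinset, Fin.prod_univ_succ]

/-- the matrix `∑ (b_0 ⋯ b_(j-1)) h_j` -/
def comb {k : ℕ} (h : Fin (k + 1) → Matrix (Fin n) (Fin n) (ZMod p))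
    (b : Fin k → Matrix (Fin n) (Fin n) (ZMod p)) : Matrix (Fin n) (Fin n) (ZMod p) :=
  ∑ j : Fin (k + 1), prodTake b j * h j

lemma comb_cons {k : ℕ} (h : Fin (k + 2) → Matrix (Fin n) (Fin n) (ZMod p))
    (x : Matrix (Fin n) (Fin n) (ZMod p)) (b : Fin k → Matrix (Fin n) (Fin n) (ZMod p)) :
    comb h (Fin.cons x b) = h 0 + x * comb (fun j => h j.succ) b := by
  unfold comb
  rw [Fin.sum_univ_succ]
  congr 1
  · rw [Fin.val_zero, prodTake_zero, Matrix.one_mul]
  · rw [Matrix.mul_sum]
    refine sum_congr rfl fun j _ => ?_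
    rw [Fin.val_succ, prodTake_cons, Matrix.mul_assoc]

/-- few families with `comb h b = 0` -/
lemma count_zero (ρ : ℝ) (hρ : 0 ≤ ρ) : ∀ (k : ℕ) (h : Fin (k + 1) → Matrix (Fin n) (Fin n) (ZMod p)), h ≠ 0 →
    ∀ (B : Fin k → Finset (Matrix (Fin n) (Fin n) (ZMod p))),
    (∀ j, ∀ M : Matrix (Fin n) (Fin n) (ZMod p), M ≠ 0 → ∀ c : Matrix (Fin n) (Fin n) (ZMod p),
      (((B j).filter (fun x => x * M = c)).card : ℝ) ≤ ρ * (B j).card) →
    (((Fintype.piFinset B).filter (fun b => comb h b = 0)).card : ℝ) ≤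
      k * ρ * (Fintype.piFinset B).card := by
  intro k
  induction k with
  | zero =>
    intro h hh B _
    have h1 : h 0 ≠ 0 := by
      intro h0
      apply hh
      funext j
      rw [Fin.fin_one_eq_zero j, h0]
      rfl
    rw [filter_eq_empty_iff.2]
    · simp
    · intro b _ h2
      apply h1
      unfold comb at h2
      rw [Fin.sum_univ_one, Fin.val_zero, prodTake_zero, Matrix.one_mul] at h2
      exact h2
  | succ k ih =>
    intro h hh B hB
    obtain ⟨B', hB'⟩ : ∃ B' : Fin k → Finset (Matrix (Fin n) (Fin n) (ZMod p)), B' = fun j => B j.succ :=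
      ⟨_, rfl⟩
    have e1 : (((Fintype.piFinset B).filter (fun b => comb h b = 0)).card : ℝ) =
        ∑ b ∈ Fintype.piFinset B',
          (((B 0).filter (fun x => h 0 + x * comb (fun j => h j.succ) b = 0)).card : ℝ) := by
      rw [card_filter]
      push_cast
      rw [sum_cons B, ← hB']
      refine sum_congr rfl fun b _ => ?_
      rw [card_filter]
      push_cast
      refine sum_congr rfl fun x _ => ?_
      rw [comb_cons]
    rw [e1, card_pi, ← hB']
    by_cases h0 : (fun j : Fin (k + 1) => h j.succ) = 0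
    · have h1 : h 0 ≠ 0 := by
        intro h2
        apply hh
        funext j
        refine Fin.cases h2 (fun i => ?_) j
        exact congrFun h0 i
      rw [sum_eq_zero]
      · positivity
      · intro b _
        have e2 : comb (fun j : Fin (k + 1) => h j.succ) b = 0 := by
          rw [h0]
          unfold comb
          simp
        rw [filter_eq_empty_iff.2]
        · simp
        · intro x _ h3
          rw [e2, Matrix.mul_zero, add_zero] at h3
          exact h1 h3
    · have h1 := ih _ h0 B' (by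
        rw [hB']
        exact fun j => hB j.succ)
      have h2 : ∀ b ∈ Fintype.piFinset B',
          (((B 0).filter (fun x => h 0 + x * comb (fun j => h j.succ) b = 0)).card : ℝ) ≤
          (if comb (fun j : Fin (k + 1) => h j.succ) b = 0 then ((B 0).card : ℝ) else 0) +
            ρ * (B 0).card := by
        intro b _
        split_ifs with h3
        · refine le_add_of_le_of_nonneg ?_ (by positivity)
          exact_mod_cast card_filter_le _ _
        · rw [zero_add]
          refine le_trans ?_ (hB 0 _ h3 (-h 0))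
          refine Nat.cast_le.2 (card_le_card ?_)
          intro x hx
          rw [mem_filter] at hx ⊢
          exact ⟨hx.1, by rw [eq_neg_iff_add_eq_zero, add_comm]; exact hx.2⟩
      refine (sum_le_sum h2).trans ?_
      rw [sum_add_distrib, ← sum_filter, sum_const, sum_const, nsmul_eq_mul, nsmul_eq_mul]
      have h4 : (((Fintype.piFinset B').filter
          (fun b => comb (fun j : Fin (k + 1) => h j.succ) b = 0)).card : ℝ) * (B 0).card ≤
          k * ρ * (Fintype.piFinset B').card * (B 0).card :=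
        mul_le_mul_of_nonneg_right h1 (Nat.cast_nonneg _)
      push_cast
      push_cast at h4
      nlinarith [h4]

/-- the decomposition of the family -/
lemma decomp {k : ℕ} (A : Fin (k + 2) → Finset (Matrix (Fin n) (Fin n) (ZMod p)))
    (h : Fin (k + 1) → Matrix (Fin n) (Fin n) (ZMod p)) :
    ∑ a ∈ Fintype.piFinset A,
      (ZMod.stdAddChar (∑ j : Fin (k + 1), trace (h j * prodTake a (j + 2))) : ℂ) =
      ∑ b ∈ Fintype.piFinset (fun j : Fin k => A j.succ.succ), ∑ x ∈ A 0, ∑ y ∈ A 1,
        (ZMod.stdAddChar (trace (comb h b * (x * y))) : ℂ) := by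
  rw [sum_cons A]
  rw [sum_cons (fun i : Fin (k + 1) => A i.succ)]
  refine sum_congr rfl fun b _ => ?_
  rw [sum_comm]
  refine sum_congr rfl fun x _ => sum_congr rfl fun y _ => ?_
  congr 1
  unfold comb
  rw [Matrix.sum_mul, Matrix.trace_sum]
  refine sum_congr rfl fun j _ => ?_
  rw [prodTake_cons, prodTake_cons, ← Matrix.mul_assoc x y, ← Matrix.mul_assoc (h j),
    Matrix.trace_mul_comm, ← Matrix.mul_assoc]

lemma card_decomp {k : ℕ} (A : Fin (k + 2) → Finset (Matrix (Fin n) (Fin n) (ZMod p))) :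
    ((Fintype.piFinset A).card : ℝ) =
      (Fintype.piFinset (fun j : Fin k => A j.succ.succ)).card * ((A 0).card * (A 1).card) := by
  rw [card_pi, card_pi]
  push_cast
  have : ((A (Fin.succ 0)).card : ℝ) = (A 1).card := rfl
  rw [this]
  ring

/-- **The exponential sum over the partial products.** -/
theorem path {K : ℝ} {X : Finset (Matrix (Fin n) (Fin n) (ZMod p))} (hX : Spread K X) (k : ℕ)
    (A : Fin (k + 2) → Finset (Matrix (Fin n) (Fin n) (ZMod p))) (hA : ∀ j, A j ⊆ X) (hA0 : ∀ j, (A j).Nonempty)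
    (t : ℝ) (ht : 1 ≤ t)
    (h01 : (X.card : ℝ) ^ 2 * t ^ 2 ≤ (A 0).card * (A 1).card * (p : ℝ) ^ n)
    (hj : ∀ j : Fin k, (X.card : ℝ) * t ^ 2 ≤ (A j.succ.succ).card * (p : ℝ) ^ n)
    (h : Fin (k + 1) → Matrix (Fin n) (Fin n) (ZMod p)) (hh : h ≠ 0) :
    ‖∑ a ∈ Fintype.piFinset A,
      (ZMod.stdAddChar (∑ j : Fin (k + 1), trace (h j * prodTake a (j + 2))) : ℂ)‖ ≤
      (Fintype.piFinset A).card * (Real.sqrt (2 * K / t) + k * (K / t ^ 2)) := by
  have hp0 : (0 : ℝ) < p := by exact_mod_cast (Fact.out : p.Prime).pos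
  have hK1 := hX.one_le
  have hK0 : 0 ≤ K := by linarith
  have ht0 : 0 < t := by linarith
  rw [decomp, card_decomp]
  obtain ⟨B, hB⟩ : ∃ B : Fin k → Finset (Matrix (Fin n) (Fin n) (ZMod p)), B = fun j => A j.succ.succ :=
    ⟨_, rfl⟩
  rw [← hB]
  have hj' : ∀ j : Fin k, (X.card : ℝ) * t ^ 2 ≤ (B j).card * (p : ℝ) ^ n := by
    rw [hB]
    exact hj
  have hA' : ∀ j, B j ⊆ X := by
    rw [hB]
    exact fun j => hA _
  have h1 : ∀ b ∈ Fintype.piFinset B, ‖∑ x ∈ A 0, ∑ y ∈ A 1,
      (ZMod.stdAddChar (trace (comb h b * (x * y))) : ℂ)‖ ≤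
      (if comb h b = 0 then ((A 0).card * (A 1).card : ℝ) else 0) +
        (A 0).card * (A 1).card * Real.sqrt (2 * K / t) := by
    intro b _
    split_ifs with h2
    · refine le_add_of_le_of_nonneg ?_ (by positivity)
      refine (norm_sum_le _ _).trans ?_
      refine (sum_le_sum fun x _ => norm_sum_le _ _).trans ?_
      simp_rw [norm_e, sum_const, nsmul_eq_mul, mul_one]
      exact le_rfl
    · rw [zero_add]
      have h3 := bil hX (A 0) (A 1) (hA 0) (hA 1) (hA0 0) (hA0 1) t ht h01 _ h2
      refine abs_le_of_sq_le_sq' ?_ (by positivity) |>.2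
      rw [mul_pow, Real.sq_sqrt (by positivity)]
      rw [mul_div_assoc', le_div_iff₀ ht0]
      linarith
  refine (norm_sum_le _ _).trans ((sum_le_sum h1).trans ?_)
  rw [sum_add_distrib, ← sum_filter, sum_const, sum_const, nsmul_eq_mul, nsmul_eq_mul]
  have h4 : (((Fintype.piFinset B).filter (fun b => comb h b = 0)).card : ℝ) ≤
      k * (K / t ^ 2) * (Fintype.piFinset B).card := by
    refine count_zero (K / t ^ 2) (by positivity) k h hh B ?_
    intro j M hM c
    have h5 := hX.right M hM c
    have h6 : (((B j).filter (fun x => x * M = c)).card : ℝ) * (p : ℝ) ^ n ≤ K * X.card := by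
      refine le_trans ?_ h5
      apply mul_le_mul_of_nonneg_right _ (by positivity)
      exact_mod_cast card_le_card (filter_subset_filter _ (hA' _))
    have h7 : (X.card : ℝ) * t ^ 2 ≤ (B j).card * (p : ℝ) ^ n := hj' j
    have hpn : (0 : ℝ) < (p : ℝ) ^ n := by positivity
    have h8 : (((B j).filter (fun x => x * M = c)).card : ℝ) * t ^ 2 * (p : ℝ) ^ n ≤
        K * (B j).card * (p : ℝ) ^ n := by
      calc (((B j).filter (fun x => x * M = c)).card : ℝ) * t ^ 2 * (p : ℝ) ^ n
          = (((B j).filter (fun x => x * M = c)).card : ℝ) * (p : ℝ) ^ n * t ^ 2 := by ring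
        _ ≤ K * X.card * t ^ 2 := mul_le_mul_of_nonneg_right h6 (by positivity)
        _ = K * (X.card * t ^ 2) := by ring
        _ ≤ K * ((B j).card * (p : ℝ) ^ n) := mul_le_mul_of_nonneg_left h7 hK0
        _ = _ := by ring
    have h9 := le_of_mul_le_mul_right h8 hpn
    rw [div_mul_eq_mul_div, le_div_iff₀ (by positivity)]
    exact h9
  have h5 : (0 : ℝ) ≤ (A 0).card * (A 1).card := by positivity
  have h6 := mul_le_mul_of_nonneg_right h4 h5
  calc _ ≤ k * (K / t ^ 2) * (Fintype.piFinset B).card * ((A 0).card * (A 1).card) +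
        (Fintype.piFinset B).card * ((A 0).card * (A 1).card * Real.sqrt (2 * K / t)) :=
        add_le_add h6 le_rfl
    _ = _ := by ring

end Pool.Agent.J4.H53.PM
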