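import Pool.Agent.N825.FC.Fin
import Pool.Agent.H226R2.ShanksGap

set_option autoImplicit false

/-! # Early long runs of composite numbers around families of vectors of residues

The criterion of the starting library (`N825.FC.crit`) in the form of first occurrences, for families with any finite
index set (compare `Pool.Agent.J4.H80.SH`, by helper80, for sequences; the lemmas on the record scale are his). -/

namespace Pool.Agent.J4.H53.PM

open Finset Filter
open Pool.Agent.W147.PS (ff ff_compare ev_pow)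
open Pool.Agent.N825.FC (Mid Many crit)

/-- the record scale is eventually increasing (compare `Y565.RG.ff_mono_ev`) -/
lemma ff_mono_ev : ∃ X₁ : ℝ, ∀ x y : ℝ, X₁ ≤ x → x ≤ y → ff x ≤ ff y := by
  refine ⟨Real.exp (Real.exp (Real.exp (Real.exp 1))), fun x y hx hxy => ?_⟩
  have hx0 : 0 < x := lt_of_lt_of_le (Real.exp_pos _) hx
  have a1 : Real.exp (Real.exp (Real.exp 1)) ≤ Real.log x := by
    rw [← Real.log_exp (Real.exp (Real.exp (Real.exp 1)))]
    exact Real.log_le_log (Real.exp_pos _) hx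
  have a1p : 0 < Real.log x := lt_of_lt_of_le (Real.exp_pos _) a1
  have a2 : Real.exp (Real.exp 1) ≤ Real.log (Real.log x) := by
    rw [← Real.log_exp (Real.exp (Real.exp 1))]
    exact Real.log_le_log (Real.exp_pos _) a1
  have a2p : 0 < Real.log (Real.log x) := lt_of_lt_of_le (Real.exp_pos _) a2
  have a3 : Real.exp 1 ≤ Real.log (Real.log (Real.log x)) := by
    rw [← Real.log_exp (Real.exp 1)]
    exact Real.log_le_log (Real.exp_pos _) a2
  have a3p : 0 < Real.log (Real.log (Real.log x)) := lt_of_lt_of_le (Real.exp_pos _) a3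
  have a4 : 1 ≤ Real.log (Real.log (Real.log (Real.log x))) := by
    rw [← Real.log_exp 1]
    exact Real.log_le_log (Real.exp_pos _) a3
  have b1 : Real.log x ≤ Real.log y := Real.log_le_log hx0 hxy
  have b2 : Real.log (Real.log x) ≤ Real.log (Real.log y) := Real.log_le_log a1p b1
  have b3 : Real.log (Real.log (Real.log x)) ≤ Real.log (Real.log (Real.log y)) :=
    Real.log_le_log a2p b2
  have b4 : Real.log (Real.log (Real.log (Real.log x))) ≤ Real.log (Real.log (Real.log (Real.log y))) :=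
    Real.log_le_log a3p b3
  have hee : Real.exp 1 ≤ Real.exp (Real.exp 1) := by
    apply Real.exp_le_exp.2
    linarith [Real.add_one_le_exp (1 : ℝ)]
  have h : Real.log (Real.log (Real.log y)) / Real.log (Real.log y) ≤
      Real.log (Real.log (Real.log x)) / Real.log (Real.log x) :=
    Real.log_div_self_antitoneOn (by simpa using hee.trans a2) (by simpa using (hee.trans a2).trans b2) b2
  have hb3p : 0 < Real.log (Real.log (Real.log y)) := lt_of_lt_of_le a3p b3
  have hb2p : 0 < Real.log (Real.log y) := lt_of_lt_of_le a2p b2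
  have h' : Real.log (Real.log x) / Real.log (Real.log (Real.log x)) ≤
      Real.log (Real.log y) / Real.log (Real.log (Real.log y)) := by
    rw [div_le_div_iff₀ hb2p a2p] at h
    rw [div_le_div_iff₀ a3p hb3p]
    linarith
  have e : ∀ t : ℝ, ff t = Real.log t * (Real.log (Real.log t) / Real.log (Real.log (Real.log t))) ^ 2 *
      Real.log (Real.log (Real.log (Real.log t))) := by
    intro t
    unfold ff
    rw [div_pow]
    ring
  rw [e, e]
  have hq : 0 ≤ Real.log (Real.log x) / Real.log (Real.log (Real.log x)) := by positivity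
  have hlx : 0 ≤ Real.log y := a1p.le.trans b1
  gcongr

/-- the record scale is smaller than every power -/
lemma ff_small (κ ε : ℝ) (hκ : 0 < κ) (hε : 0 < ε) : ∀ᶠ x : ℝ in atTop, κ * ff x ≤ x ^ ε := by
  have t1 : Tendsto Real.log atTop atTop := Real.tendsto_log_atTop
  have t2 : Tendsto (fun M : ℝ => Real.log (Real.log M)) atTop atTop := t1.comp t1
  have t3 : Tendsto (fun M : ℝ => Real.log (Real.log (Real.log M))) atTop atTop := t1.comp t2
  have t4 : Tendsto (fun M : ℝ => Real.log (Real.log (Real.log (Real.log M)))) atTop atTop := t1.comp t3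
  have hs : 0 < ε / 8 := by positivity
  filter_upwards [eventually_ge_atTop 1, t1.eventually_ge_atTop 1, t2.eventually_ge_atTop 1,
    t3.eventually_ge_atTop 1, t4.eventually_ge_atTop 1, ev_pow (ε / 2) ε (κ * (1 / (ε / 8)) ^ 4) (by linarith)]
    with x hx m1 m2 m3 m4 hp
  have e1 : Real.log (Real.log x) ≤ Real.log x := by
    have := Real.log_le_sub_one_of_pos (show 0 < Real.log x by linarith)
    linarith
  have e2 : Real.log (Real.log (Real.log x)) ≤ Real.log (Real.log x) := by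
    have := Real.log_le_sub_one_of_pos (show 0 < Real.log (Real.log x) by linarith)
    linarith
  have e3 : Real.log (Real.log (Real.log (Real.log x))) ≤ Real.log (Real.log (Real.log x)) := by
    have := Real.log_le_sub_one_of_pos (show 0 < Real.log (Real.log (Real.log x)) by linarith)
    linarith
  have h1 : ff x ≤ Real.log x ^ 4 := by
    unfold ff
    rw [div_le_iff₀ (by positivity)]
    have a1 : Real.log (Real.log x) ^ 2 ≤ Real.log x ^ 2 := pow_le_pow_left₀ (by linarith) e1 2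
    have a2 : Real.log (Real.log (Real.log (Real.log x))) ≤ Real.log x := by linarith
    have a3 : (1 : ℝ) ≤ Real.log (Real.log (Real.log x)) ^ 2 := one_le_pow₀ m3
    calc Real.log x * Real.log (Real.log x) ^ 2 * Real.log (Real.log (Real.log (Real.log x)))
        ≤ Real.log x * Real.log x ^ 2 * Real.log x := by
          apply mul_le_mul _ a2 (by linarith) (by positivity)
          exact mul_le_mul_of_nonneg_left a1 (by linarith)
      _ = Real.log x ^ 4 * 1 := by ring
      _ ≤ _ := mul_le_mul_of_nonneg_left a3 (by positivity)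
  have h2 : Real.log x ≤ (1 / (ε / 8)) * x ^ (ε / 8) := by
    have := Real.log_le_rpow_div (show 0 ≤ x by linarith) hs
    rw [div_eq_mul_one_div, mul_comm] at this
    exact this
  have h3 : Real.log x ^ 4 ≤ (1 / (ε / 8)) ^ 4 * x ^ (ε / 2) := by
    calc Real.log x ^ 4 ≤ ((1 / (ε / 8)) * x ^ (ε / 8)) ^ 4 := pow_le_pow_left₀ (by linarith) h2 4
      _ = (1 / (ε / 8)) ^ 4 * (x ^ (ε / 8)) ^ 4 := by rw [mul_pow]
      _ = _ := by
          rw [← Real.rpow_natCast (x ^ (ε / 8)), ← Real.rpow_mul (by linarith)]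
          congr 2
          push_cast
          ring
  calc κ * ff x ≤ κ * ((1 / (ε / 8)) ^ 4 * x ^ (ε / 2)) := mul_le_mul_of_nonneg_left (h1.trans h3) hκ.le
    _ = κ * (1 / (ε / 8)) ^ 4 * x ^ (ε / 2) := by ring
    _ ≤ _ := hp

/-- the shape of the best known bound for the first run of `g` composite numbers -/
noncomputable def bd (C : ℝ) (g : ℕ) : ℝ :=
  Real.exp (C * g * (Real.log (Real.log g)) ^ 2 / ((Real.log g) ^ 2 * Real.log (Real.log (Real.log g))))

/-- In all boxes of sides `L`, `p ^ (1 - δ) ≤ L ≤ p`, which are not too close to `0`, at least `|s| p ^ (-ε)` of the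
vectors `v i`, `i ∈ s`, modulo `p` are represented by vectors of integers which all are at distance more than `g`
from all primes. -/
def Runs (ε δ : ℝ) (g p : ℕ) {ι : Type} (s : Finset ι) {r : ℕ} (v : ι → Fin r → ZMod p) : Prop :=
  ∀ (M : Fin r → ℕ) (L : ℕ), (∀ j, 2 * (p : ℝ) ^ ε ≤ M j) → (p : ℝ) ^ (1 - δ) ≤ L → L ≤ p →
    ∃ S ⊆ s, s.card * (p : ℝ) ^ (-ε) ≤ S.card ∧ ∀ i ∈ S, ∀ j, ∃ a : ℕ, M j < a ∧ a ≤ M j + L ∧
      (a : ZMod p) = v i j ∧ ∀ q : ℕ, q.Prime → (g : ℝ) < |(q : ℝ) - a|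

theorem runs (r : ℕ) (hr : 1 ≤ r) (ε : ℝ) (hε : 0 < ε) (hε1 : ε ≤ 1) (δ₀ : ℝ) (hδ₀ : 0 < δ₀) (P₁ : ℝ) :
    ∃ C : ℝ, 0 < C ∧ ∃ δ : ℝ, 0 < δ ∧ ∃ G : ℕ, ∀ g : ℕ, G ≤ g → ∀ (p : ℕ) [Fact p.Prime], bd C g ≤ p →
    P₁ ≤ p ∧ ∀ (ι : Type) (s : Finset ι), s.Nonempty → ∀ v : ι → Fin r → ZMod p,
    (∀ h : Fin r → ZMod p, h ≠ 0 →
      ‖∑ i ∈ s, (ZMod.stdAddChar (∑ j, h j * v i j) : ℂ)‖ ≤ s.card * (p : ℝ) ^ (-δ₀)) →
    Runs ε δ g p s v := by
  obtain ⟨ε₁, hε₁⟩ : ∃ ε₁, ε₁ = min ε δ₀ := ⟨_, rfl⟩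
  have h1 : 0 < ε₁ := by rw [hε₁]; exact lt_min hε hδ₀
  have h2 : ε₁ ≤ ε := by rw [hε₁]; exact min_le_left _ _
  have h3 : ε₁ ≤ δ₀ := by rw [hε₁]; exact min_le_right _ _
  obtain ⟨κ, hκ, δ, hδ, P₀, hcrit⟩ := crit r hr ε₁ h1 (h2.trans hε1)
  obtain ⟨X₁, hX₁⟩ := ff_mono_ev
  obtain ⟨X₂, hX₂⟩ := eventually_atTop.1 (ff_small κ ε hκ hε)
  obtain ⟨G, hG⟩ := Pool.Agent.H226R2.ShanksGap.ana κ hκ (max (max (max P₀ P₁) X₁) (max X₂ 1))
  refine ⟨16 / κ, by positivity, δ, hδ, G, ?_⟩
  intro g hg p _ hp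
  obtain ⟨c1, c2⟩ := hG g hg
  obtain ⟨c3, c4⟩ := max_le_iff.1 c1
  obtain ⟨c5', c6⟩ := max_le_iff.1 c3
  obtain ⟨c5, c9⟩ := max_le_iff.1 c5'
  obtain ⟨c7, c8⟩ := max_le_iff.1 c4
  unfold bd at hp
  refine ⟨c9.trans hp, ?_⟩
  intro ι s hs v hv
  have hp1 : (1 : ℝ) ≤ p := c8.trans hp
  have hp0 : (0 : ℝ) < p := by linarith
  have hff : (g : ℝ) + 1 ≤ κ * ff p := by
    refine c2.trans ?_
    have h5 : κ * ff (Real.exp ((16 / κ) * g * (Real.log (Real.log g)) ^ 2 /
        ((Real.log g) ^ 2 * Real.log (Real.log (Real.log g))))) ≤ κ * ff p :=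
      mul_le_mul_of_nonneg_left (hX₁ _ _ c6 hp) hκ.le
    refine le_trans (le_of_eq ?_) h5
    unfold ff
    rw [Real.log_exp]
  have hffp : κ * ff p ≤ (p : ℝ) ^ ε := hX₂ p (c7.trans hp)
  intro M L hM hL1 hL2
  obtain ⟨S, hS, hS1, hS2⟩ := hcrit p (c5.trans hp) ι s v hs (by
    intro h hh
    refine (hv h hh).trans ?_
    apply mul_le_mul_of_nonneg_left _ (Nat.cast_nonneg _)
    exact Real.rpow_le_rpow_of_exponent_le hp1 (by linarith)) (fun j => (M j : ℤ)) L hL1 hL2
  refine ⟨S, hS, ?_, ?_⟩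
  · refine le_trans ?_ hS1
    apply mul_le_mul_of_nonneg_left _ (Nat.cast_nonneg _)
    exact Real.rpow_le_rpow_of_exponent_le hp1 (by linarith)
  · intro n hn j
    obtain ⟨a, ha1, ha2, ha3, ha4⟩ := hS2 n hn j
    have ha1' : (M j : ℤ) < a := ha1
    obtain ⟨b, rfl⟩ : ∃ b : ℕ, a = b := ⟨a.toNat, by rw [Int.toNat_of_nonneg (by omega)]⟩
    have hb1 : M j < b := by exact_mod_cast ha1'
    have ha2' : (b : ℤ) ≤ M j + L := ha2
    refine ⟨b, hb1, by exact_mod_cast ha2', by exact_mod_cast ha3, ?_⟩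
    intro q hq
    by_contra hcon
    rw [not_lt] at hcon
    obtain ⟨l, hl, hl1, hl2⟩ := ha4 q (by
      push_cast
      exact hcon.trans (by linarith))
    have hlq : l = q := (Nat.prime_dvd_prime_iff_eq hl hq).1 (by exact_mod_cast hl2)
    have hq1 : (q : ℝ) ≤ (p : ℝ) ^ ε := by
      rw [← hlq]
      exact hl1.trans (Real.rpow_le_rpow_of_exponent_le hp1 h2)
    have hbr : (M j : ℝ) < b := by exact_mod_cast hb1
    have h7 := (abs_le.1 hcon).1
    have h8 := hM j
    linarith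

end Pool.Agent.J4.H53.PM
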