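import Pool.Agent.J4.H53.PM.Ex
import Pool.Agent.J4.H53.PM.Path
import Pool.Agent.J4.H53.PM.Runs

set_option autoImplicit false

/-! # Early long runs of composite numbers around the entries of products of matrices -/

namespace Pool.Agent.J4.H53.PM

open Finset Matrix

lemma num_path (K ε : ℝ) (hK : 1 ≤ K) (hε : 0 < ε) (k : ℕ) : ∃ P₁ : ℝ, ∀ P : ℝ, P₁ ≤ P → 1 ≤ P →
    Real.sqrt (2 * K / P ^ (ε / 2)) + k * (K / (P ^ (ε / 2)) ^ 2) ≤ P ^ (-(ε / 8)) := by
  set D : ℝ := Real.sqrt (2 * K) + k * K + 1 with hD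
  have hD0 : 0 < D := by positivity
  refine ⟨D ^ (8 / ε), fun P hP hP1 => ?_⟩
  have hP0 : 0 < P := by linarith
  set y : ℝ := P ^ (ε / 8) with hy
  have hy1 : 1 ≤ y := Real.one_le_rpow hP1 (by positivity)
  have hy0 : 0 < y := by linarith
  have hyD : D ≤ y := by
    rw [hy]
    calc D = (D ^ (8 / ε)) ^ (ε / 8) := by
          rw [← Real.rpow_mul hD0.le]
          rw [show 8 / ε * (ε / 8) = 1 by field_simp, Real.rpow_one]
      _ ≤ P ^ (ε / 8) := Real.rpow_le_rpow (by positivity) hP (by positivity)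
  have e1 : P ^ (ε / 2) = y ^ 4 := by
    rw [hy, ← Real.rpow_natCast, ← Real.rpow_mul hP0.le]
    congr 1
    push_cast
    ring
  have e2 : P ^ (-(ε / 8)) = 1 / y := by
    rw [Real.rpow_neg hP0.le, one_div]
  rw [e1, e2]
  have e3 : Real.sqrt (2 * K / y ^ 4) = Real.sqrt (2 * K) / y ^ 2 := by
    rw [Real.sqrt_div (by positivity)]
    congr 1
    rw [show y ^ 4 = (y ^ 2) ^ 2 by ring]
    exact Real.sqrt_sq (by positivity)
  rw [e3]
  have h1 : Real.sqrt (2 * K) / y ^ 2 + k * (K / (y ^ 4) ^ 2) ≤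
      Real.sqrt (2 * K) / y ^ 2 + k * K / y ^ 2 := by
    refine add_le_add le_rfl ?_
    rw [mul_div_assoc']
    apply div_le_div_of_nonneg_left (by positivity) (by positivity)
    rw [← pow_mul]
    exact pow_le_pow_right₀ hy1 (by norm_num)
  refine h1.trans ?_
  rw [← add_div, div_le_div_iff₀ (by positivity) hy0, one_mul]
  have h2 : Real.sqrt (2 * K) + k * K ≤ y := by linarith
  calc (Real.sqrt (2 * K) + k * K) * y ≤ y * y := mul_le_mul_of_nonneg_right h2 hy0.le
    _ = y ^ 2 := by ring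

section

variable {p : ℕ} [Fact p.Prime] {n : ℕ}

lemma functional {k m : ℕ} (T : (Fin (k + 1) → Matrix (Fin n) (Fin n) (ZMod p)) →ₗ[ZMod p] (Fin m → ZMod p))
    (hT : Function.Surjective T) (h : Fin m → ZMod p) (hh : h ≠ 0) :
    ∃ H : Fin (k + 1) → Matrix (Fin n) (Fin n) (ZMod p), H ≠ 0 ∧
      ∀ v, ∑ j, h j * T v j = ∑ j, trace (H j * v j) := by
  set l : (Fin (k + 1) → Matrix (Fin n) (Fin n) (ZMod p)) →ₗ[ZMod p] ZMod p :=
    ∑ j, h j • ((LinearMap.proj j : (Fin m → ZMod p) →ₗ[ZMod p] ZMod p) ∘ₗ T) with hl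
  have hl1 : ∀ v, l v = ∑ j, h j * T v j := by
    intro v
    rw [hl, LinearMap.sum_apply]
    rfl
  set H : Fin (k + 1) → Matrix (Fin n) (Fin n) (ZMod p) :=
    fun j => Matrix.of fun r s => l (Pi.single j (Matrix.single s r 1)) with hH
  have h1 : ∀ v, l v = ∑ j, trace (H j * v j) := by
    intro v
    have e1 : v = ∑ j, Pi.single j (v j) := (Finset.univ_sum_single v).symm
    have e2 : l v = ∑ j, l (Pi.single j (v j)) := by
      conv_lhs => rw [e1]
      rw [map_sum]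
    rw [e2]
    refine sum_congr rfl fun j _ => ?_
    have e3 : Pi.single j (v j) = ∑ s, ∑ r, v j s r • (Pi.single j (Matrix.single s r (1 : ZMod p)) :
        Fin (k + 1) → Matrix (Fin n) (Fin n) (ZMod p)) := by
      conv_lhs => rw [Matrix.matrix_eq_sum_single (v j)]
      rw [← LinearMap.coe_single (R := ZMod p) (φ := fun _ : Fin (k + 1) => Matrix (Fin n) (Fin n) (ZMod p)),
        map_sum]
      refine sum_congr rfl fun s _ => ?_
      rw [map_sum]
      refine sum_congr rfl fun r _ => ?_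
      rw [← map_smul, Matrix.smul_single, smul_eq_mul, mul_one]
    rw [e3, map_sum]
    rw [Matrix.trace]
    simp only [Matrix.diag_apply, Matrix.mul_apply]
    rw [sum_comm]
    refine sum_congr rfl fun s _ => ?_
    rw [map_sum]
    refine sum_congr rfl fun r _ => ?_
    rw [map_smul, smul_eq_mul, mul_comm]
    rfl
  refine ⟨H, ?_, fun v => by rw [← hl1, h1]⟩
  intro h0
  apply hh
  funext j
  obtain ⟨w, hw⟩ := hT (Pi.single j 1)
  have h2 : ∑ i, h i * T w i = 0 := by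
    rw [← hl1, h1, h0]
    simp
  rw [hw] at h2
  simpa [Pi.single_apply] using h2

end

/-- **Early long runs of composite numbers around the entries of partial products.** -/
theorem early (n k m : ℕ) (hm : 1 ≤ m) (K : ℝ) (hK : 1 ≤ K) (ε : ℝ) (hε : 0 < ε) (hε1 : ε ≤ 1) :
    ∃ C : ℝ, 0 < C ∧ ∃ δ : ℝ, 0 < δ ∧ ∃ G : ℕ, ∀ g : ℕ, G ≤ g → ∀ (p : ℕ) [Fact p.Prime], bd C g ≤ p →
    ∀ X : Finset (Matrix (Fin n) (Fin n) (ZMod p)), X.Nonempty → Spread K X →
    ∀ A : Fin (k + 2) → Finset (Matrix (Fin n) (Fin n) (ZMod p)), (∀ j, A j ⊆ X) →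
    (X.card : ℝ) ^ 2 * (p : ℝ) ^ (-(n : ℝ) + ε) ≤ (A 0).card * (A 1).card →
    (∀ j : Fin k, (X.card : ℝ) * (p : ℝ) ^ (-(n : ℝ) + ε) ≤ (A j.succ.succ).card) →
    ∀ (T : (Fin (k + 1) → Matrix (Fin n) (Fin n) (ZMod p)) →ₗ[ZMod p] (Fin m → ZMod p))
      (c : Fin m → ZMod p), Function.Surjective T →
    Runs ε δ g p (Fintype.piFinset A) (fun a => T (fun j => prodTake a (j + 2)) + c) := by
  obtain ⟨P₁, hP₁⟩ := num_path K ε hK hε k
  obtain ⟨C, hC, δ, hδ, G, h⟩ := runs m hm ε hε hε1 (ε / 8) (by positivity) P₁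
  refine ⟨C, hC, δ, hδ, G, ?_⟩
  intro g hg p _ hp X hX0 hX A hA h01 hj T c hT
  obtain ⟨hpP, h1⟩ := h g hg p hp
  have hp1 : (1 : ℝ) ≤ p := by exact_mod_cast (Fact.out : p.Prime).one_le
  have hp0 : (0 : ℝ) < p := by linarith
  have hXc : (0 : ℝ) < X.card := by exact_mod_cast hX0.card_pos
  have hpn : (0 : ℝ) < (p : ℝ) ^ n := by positivity
  set t : ℝ := (p : ℝ) ^ (ε / 2) with ht
  have ht1 : 1 ≤ t := Real.one_le_rpow hp1 (by positivity)
  have et : t ^ 2 = (p : ℝ) ^ ε := by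
    rw [ht, ← Real.rpow_natCast, ← Real.rpow_mul hp0.le]
    congr 1
    push_cast
    ring
  have ep : (p : ℝ) ^ (-(n : ℝ) + ε) * (p : ℝ) ^ n = t ^ 2 := by
    rw [et, ← Real.rpow_natCast (p : ℝ) n, ← Real.rpow_add hp0]
    congr 1
    ring
  have hpe : (0 : ℝ) < (p : ℝ) ^ (-(n : ℝ) + ε) := by positivity
  have h01' : (X.card : ℝ) ^ 2 * t ^ 2 ≤ (A 0).card * (A 1).card * (p : ℝ) ^ n := by
    rw [← ep, ← mul_assoc]
    exact mul_le_mul_of_nonneg_right h01 hpn.le
  have hj' : ∀ j : Fin k, (X.card : ℝ) * t ^ 2 ≤ (A j.succ.succ).card * (p : ℝ) ^ n := by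
    intro j
    rw [← ep, ← mul_assoc]
    exact mul_le_mul_of_nonneg_right (hj j) hpn.le
  have hpos : (0 : ℝ) < (A 0).card * (A 1).card := lt_of_lt_of_le (by positivity) h01
  have hA0 : ∀ j, (A j).Nonempty := by
    intro j
    rw [nonempty_iff_ne_empty]
    intro h0
    refine Fin.cases (fun h0 => ?_) (fun i => Fin.cases (fun h0 => ?_) (fun i' h0 => ?_) i) j h0
    · rw [h0] at hpos
      simp at hpos
    · have : (A 1).card = 0 := by
        have h2 : A 1 = ∅ := h0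
        rw [h2]
        rfl
      rw [this] at hpos
      simp at hpos
    · have h2 := hj i'
      rw [h0] at h2
      have h3 : (0 : ℝ) < X.card * (p : ℝ) ^ (-(n : ℝ) + ε) := by positivity
      simp at h2
      linarith
  refine h1 _ (Fintype.piFinset A) ?_ _ ?_
  · rw [Fintype.piFinset_nonempty]
    exact hA0
  · intro f hf
    obtain ⟨H, hH0, hH⟩ := functional T hT f hf
    have e1 : ‖∑ a ∈ Fintype.piFinset A,
        (ZMod.stdAddChar (∑ j, f j * (T (fun j => prodTake a (j + 2)) + c) j) : ℂ)‖ =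
        ‖∑ a ∈ Fintype.piFinset A,
          (ZMod.stdAddChar (∑ j : Fin (k + 1), trace (H j * prodTake a (j + 2))) : ℂ)‖ := by
      have e2 : ∀ a ∈ Fintype.piFinset A,
          (ZMod.stdAddChar (∑ j, f j * (T (fun j => prodTake a (j + 2)) + c) j) : ℂ) =
          (ZMod.stdAddChar (∑ j, f j * c j) : ℂ) *
            ZMod.stdAddChar (∑ j : Fin (k + 1), trace (H j * prodTake a (j + 2))) := by
        intro a _
        rw [← AddChar.map_add_eq_mul, ← hH (fun j => prodTake a (j + 2)), ← sum_add_distrib]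
        congr 1
        refine sum_congr rfl fun j _ => ?_
        rw [Pi.add_apply]
        ring
      rw [sum_congr rfl e2, ← mul_sum, norm_mul, norm_e, one_mul]
    rw [e1]
    refine (path hX k A hA hA0 t ht1 h01' hj' H hH0).trans ?_
    exact mul_le_mul_of_nonneg_left (hP₁ p hpP hp1) (Nat.cast_nonneg _)

end Pool.Agent.J4.H53.PM
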