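import Pool.Agent.J4.H53.PM.Ex

set_option autoImplicit false

/-! # Sharpness of the exponent -/

namespace Pool.Agent.J4.H53.PM

open Finset Matrix

variable {p : ℕ} [Fact p.Prime] {n : ℕ}

/-- the number of the matrices of determinant one with a given row -/
lemma fib_eq (hn : 2 ≤ n) (r : Fin n → ZMod p) (hr : r ≠ 0) (w : Fin n → ZMod p) (hw : w ≠ 0) :
    ((SLn n p).filter (fun x => r ᵥ* x = w)).card * (p ^ n - 1) = (SLn n p).card := by
  have h1 : ∀ v w' : Fin n → ZMod p, v ≠ 0 → w' ≠ 0 → ((SLn n p).filter (fun x => r ᵥ* x = v)).card ≤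
      ((SLn n p).filter (fun x => r ᵥ* x = w')).card := by
    intro v w' hv hw'
    obtain ⟨g, hg1, hg2⟩ := trans_row hn v w' hv hw'
    refine card_le_card_of_injOn (fun x => x * g) ?_ ?_
    · intro x hx
      rw [mem_coe, mem_filter, mem_SLn] at hx ⊢
      refine ⟨by rw [Matrix.det_mul, hx.1, hg1, one_mul], ?_⟩
      rw [← Matrix.vecMul_vecMul, hx.2, hg2]
    · intro x _ y _ hxy
      have hu : IsUnit g.det := by rw [hg1]; exact isUnit_one
      have h2 : x * g * g⁻¹ = y * g * g⁻¹ := by
        have : x * g = y * g := hxy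
        rw [this]
      rwa [Matrix.mul_assoc, Matrix.mul_assoc, Matrix.mul_nonsing_inv _ hu, Matrix.mul_one,
        Matrix.mul_one] at h2
  have h3 : (SLn n p).card = ∑ w' ∈ (univ : Finset (Fin n → ZMod p)).erase 0,
      ((SLn n p).filter (fun x => r ᵥ* x = w')).card := by
    rw [card_eq_sum_card_fiberwise (f := fun x => r ᵥ* x) (t := (univ : Finset (Fin n → ZMod p)).erase 0)]
    intro x hx
    rw [mem_coe, mem_SLn] at hx
    rw [mem_coe, mem_erase]
    refine ⟨fun h => hr ?_, mem_univ _⟩
    have hu : IsUnit x.det := by rw [hx]; exact isUnit_one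
    have h1 : r ᵥ* x ᵥ* x⁻¹ = r := by
      rw [Matrix.vecMul_vecMul, Matrix.mul_nonsing_inv _ hu, Matrix.vecMul_one]
    have h : r ᵥ* x = 0 := h
    rw [← h1, h, Matrix.zero_vecMul]
  have h5 : (((univ : Finset (Fin n → ZMod p)).erase 0).card) = p ^ n - 1 := by
    rw [card_erase_of_mem (mem_univ _), card_univ, Fintype.card_pi_const, ZMod.card]
  rw [h3, ← h5, mul_comm, ← smul_eq_mul, ← sum_const]
  refine sum_congr rfl fun w' hw' => ?_
  exact le_antisymm (h1 _ _ hw (ne_of_mem_erase hw')) (h1 _ _ (ne_of_mem_erase hw') hw)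

/-- the number of the matrices of determinant one with `r x` in a given set of nonzero vectors -/
lemma fib_set (hn : 2 ≤ n) (r : Fin n → ZMod p) (hr : r ≠ 0) (W : Finset (Fin n → ZMod p)) (hW : 0 ∉ W) :
    ((SLn n p).filter (fun x => r ᵥ* x ∈ W)).card * (p ^ n - 1) = W.card * (SLn n p).card := by
  have h1 : ((SLn n p).filter (fun x => r ᵥ* x ∈ W)).card =
      ∑ w ∈ W, ((SLn n p).filter (fun x => r ᵥ* x = w)).card := by
    rw [card_eq_sum_card_fiberwise (f := fun x => r ᵥ* x) (t := W)]
    · refine sum_congr rfl fun w hw => ?_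
      congr 1
      ext x
      simp only [mem_filter]
      exact ⟨fun h => ⟨h.1.1, h.2⟩, fun h => ⟨⟨h.1, by rw [h.2]; exact hw⟩, h.2⟩⟩
    · intro x hx
      exact (mem_filter.1 hx).2
  rw [h1, sum_mul, sum_congr rfl fun w hw => fib_eq hn r hr w (fun h => hW (h ▸ hw)), sum_const,
    smul_eq_mul]

/-- **The exponent `n` is best possible.** -/
theorem sharp (hn : 2 ≤ n) (i : Fin n) : ∃ A B : Finset (Matrix (Fin n) (Fin n) (ZMod p)),
    A ⊆ SLn n p ∧ B ⊆ SLn n p ∧
    ((SLn n p).card : ℝ) ^ 2 ≤ 4 * (p : ℝ) ^ n * (A.card * B.card) ∧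
    ∀ a ∈ A, ∀ b ∈ B, (a * b) i i = 0 := by
  classical
  have hp2 : 2 ≤ p := (Fact.out : p.Prime).two_le
  have hei : (Pi.single i 1 : Fin n → ZMod p) ≠ 0 := by
    intro h
    have := congrFun h i
    simp at this
  -- `a` with the row `i` proportional to `e_i`
  set WA : Finset (Fin n → ZMod p) := (univ.erase (0 : ZMod p)).image (fun l => Pi.single i l) with hWA
  -- `b` with the column `i` nonzero and orthogonal to `e_i`
  set WB : Finset (Fin n → ZMod p) := (univ.filter (fun w : Fin n → ZMod p => w i = 0)).erase 0 with hWB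
  have hWA0 : (0 : Fin n → ZMod p) ∉ WA := by
    rw [hWA, mem_image]
    rintro ⟨l, hl, h⟩
    have := congrFun h i
    simp at this
    exact (ne_of_mem_erase hl) this
  have hWB0 : (0 : Fin n → ZMod p) ∉ WB := notMem_erase _ _
  have hWAc : WA.card = p - 1 := by
    rw [hWA, card_image_of_injective _ (Pi.single_injective i), card_erase_of_mem (mem_univ _), card_univ,
      ZMod.card]
  have hWBc : WB.card = p ^ (n - 1) - 1 := by
    have h1 : (univ.filter (fun w : Fin n → ZMod p => w i = 0)).card = p ^ (n - 1) := by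
      have h2 : (univ.filter (fun w : Fin n → ZMod p => w i = 0)).card * p = p ^ n := by
        have h3 : p ^ n = (univ : Finset (Fin n → ZMod p)).card := by
          rw [card_univ, Fintype.card_pi_const, ZMod.card]
        have h4 : (univ.filter (fun w : Fin n → ZMod p => w i = 0)).card * p =
            ((univ.filter (fun w : Fin n → ZMod p => w i = 0)) ×ˢ (univ : Finset (ZMod p))).card := by
          rw [card_product, card_univ (α := ZMod p), ZMod.card]
        rw [h3, h4]
        refine card_nbij' (fun z => Function.update z.1 i z.2) (fun w => (Function.update w i 0, w i))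
          (fun _ _ => mem_univ _) ?_ ?_ ?_
        · intro w _
          rw [mem_coe, mem_product, mem_filter]
          exact ⟨⟨mem_univ _, by simp⟩, mem_univ _⟩
        · intro z hz
          rw [mem_coe, mem_product, mem_filter] at hz
          refine Prod.ext ?_ ?_
          · show Function.update (Function.update z.1 i z.2) i 0 = z.1
            rw [Function.update_idem, Function.update_eq_self_iff]
            exact hz.1.2.symm
          · show (Function.update z.1 i z.2) i = z.2
            simp
        · intro w _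
          show Function.update (Function.update w i 0) i (w i) = w
          rw [Function.update_idem, Function.update_eq_self]
      have h5 : p ^ n = p ^ (n - 1) * p := by
        rw [← pow_succ]
        congr 1
        omega
      rw [h5] at h2
      exact Nat.eq_of_mul_eq_mul_right (by omega) h2
    rw [hWB, card_erase_of_mem (by simp), h1]
  set A := (SLn n p).filter (fun x => Pi.single i 1 ᵥ* x ∈ WA) with hA
  set B' := (SLn n p).filter (fun x => Pi.single i 1 ᵥ* x ∈ WB) with hB'
  have hAc := fib_set hn (Pi.single i 1 : Fin n → ZMod p) hei WA hWA0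
  have hBc := fib_set hn (Pi.single i 1 : Fin n → ZMod p) hei WB hWB0
  rw [← hA, hWAc] at hAc
  rw [← hB', hWBc] at hBc
  refine ⟨A, B'.image Matrix.transpose, filter_subset _ _, ?_, ?_, ?_⟩
  · intro x hx
    rw [mem_image] at hx
    obtain ⟨y, hy, rfl⟩ := hx
    rw [mem_SLn, Matrix.det_transpose]
    exact mem_SLn.1 (mem_filter.1 hy).1
  · rw [card_image_of_injective _ Matrix.transpose_injective]
    -- numbers
    have hpn1 : 1 ≤ p ^ n := Nat.one_le_pow _ _ (by omega)
    have hpn1' : 1 ≤ p ^ (n - 1) := Nat.one_le_pow _ _ (by omega)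
    have hc : ((SLn n p).card : ℝ) ≤ 2 * (p : ℝ) ^ n / p * A.card := by
      have h1 : ((p : ℝ) - 1) * (SLn n p).card = A.card * ((p : ℝ) ^ n - 1) := by
        have := congrArg (Nat.cast : ℕ → ℝ) hAc
        push_cast [Nat.cast_sub hpn1, Nat.cast_sub (by omega : 1 ≤ p)] at this
        linarith
      have hp2' : (2 : ℝ) ≤ p := by exact_mod_cast hp2
      have hA0 : (0 : ℝ) ≤ A.card := Nat.cast_nonneg _
      rw [div_mul_eq_mul_div, le_div_iff₀ (by linarith)]
      have h2 : (p : ℝ) * (SLn n p).card ≤ 2 * (((p : ℝ) - 1) * (SLn n p).card) := by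
        have : (0 : ℝ) ≤ (SLn n p).card := Nat.cast_nonneg _
        nlinarith
      calc ((SLn n p).card : ℝ) * p = p * (SLn n p).card := mul_comm _ _
        _ ≤ 2 * (A.card * ((p : ℝ) ^ n - 1)) := by rw [← h1]; exact h2
        _ ≤ 2 * (p : ℝ) ^ n * A.card := by nlinarith
    have hd : ((SLn n p).card : ℝ) ≤ 2 * p * B'.card := by
      have h1 : ((p : ℝ) ^ (n - 1) - 1) * (SLn n p).card = B'.card * ((p : ℝ) ^ n - 1) := by
        have := congrArg (Nat.cast : ℕ → ℝ) hBc
        push_cast [Nat.cast_sub hpn1, Nat.cast_sub hpn1'] at this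
        linarith
      have hp2' : (2 : ℝ) ≤ (p : ℝ) ^ (n - 1) := by
        calc (2 : ℝ) ≤ p := by exact_mod_cast hp2
          _ = (p : ℝ) ^ 1 := (pow_one _).symm
          _ ≤ (p : ℝ) ^ (n - 1) := pow_le_pow_right₀ (by exact_mod_cast (by omega : 1 ≤ p)) (by omega)
      have hB0 : (0 : ℝ) ≤ B'.card := Nat.cast_nonneg _
      have h2 : (p : ℝ) ^ (n - 1) * (SLn n p).card ≤ 2 * (((p : ℝ) ^ (n - 1) - 1) * (SLn n p).card) := by
        have : (0 : ℝ) ≤ (SLn n p).card := Nat.cast_nonneg _
        nlinarith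
      have h3 : (p : ℝ) ^ n = (p : ℝ) ^ (n - 1) * p := by
        rw [← pow_succ]
        congr 1
        omega
      have h4 : (p : ℝ) ^ (n - 1) * (SLn n p).card ≤ (p : ℝ) ^ (n - 1) * (2 * p * B'.card) := by
        calc _ ≤ 2 * (B'.card * ((p : ℝ) ^ n - 1)) := by rw [← h1]; exact h2
          _ ≤ 2 * (B'.card * (p : ℝ) ^ n) := by nlinarith
          _ = _ := by rw [h3]; ring
      exact le_of_mul_le_mul_left h4 (by linarith)
    have hS0 : (0 : ℝ) ≤ (SLn n p).card := Nat.cast_nonneg _
    have hp0 : (0 : ℝ) < p := by exact_mod_cast (by omega : 0 < p)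
    calc ((SLn n p).card : ℝ) ^ 2 = (SLn n p).card * (SLn n p).card := sq _
      _ ≤ (2 * (p : ℝ) ^ n / p * A.card) * (2 * p * B'.card) := by gcongr
      _ = 4 * (p : ℝ) ^ n * (A.card * B'.card) := by field_simp; ring
  · intro a ha b hb
    rw [mem_image] at hb
    obtain ⟨y, hy, rfl⟩ := hb
    rw [hA, mem_filter] at ha
    rw [hB', mem_filter] at hy
    obtain ⟨l, -, hl⟩ := mem_image.1 ha.2
    have h1 : ∀ k, a i k = (Pi.single i l : Fin n → ZMod p) k := by
      intro k
      have := congrFun hl k
      rw [this]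
      simp
    have h2 : y i i = 0 := by
      have := (mem_filter.1 (mem_of_mem_erase hy.2)).2
      simpa using this
    rw [Matrix.mul_apply, sum_eq_single i]
    · rw [Matrix.transpose_apply, h2, mul_zero]
    · intro k _ hk
      rw [h1, Pi.single_eq_of_ne hk, zero_mul]
    · intro h
      exact absurd (mem_univ _) h

end Pool.Agent.J4.H53.PM
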