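import Mathlib

set_option autoImplicit false

/-! # Sets of matrices which are spread, and products of matrices from two arbitrary subsets -/

namespace Pool.Agent.J4.H53.PM

open Finset Matrix

variable {p : ℕ} [Fact p.Prime] {n : ℕ}

/-- A set `X` of matrices: `M x = c` and `x M = c` have few solutions `x` in `X` if `M ≠ 0`, and the Fourier
coefficients of `X` are small. -/
structure Spread (K : ℝ) (X : Finset (Matrix (Fin n) (Fin n) (ZMod p))) : Prop where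
  one_le : 1 ≤ K
  left : ∀ M : Matrix (Fin n) (Fin n) (ZMod p), M ≠ 0 → ∀ c : Matrix (Fin n) (Fin n) (ZMod p),
    ((X.filter (fun x => M * x = c)).card : ℝ) * (p : ℝ) ^ n ≤ K * X.card
  right : ∀ M : Matrix (Fin n) (Fin n) (ZMod p), M ≠ 0 → ∀ c : Matrix (Fin n) (Fin n) (ZMod p),
    ((X.filter (fun x => x * M = c)).card : ℝ) * (p : ℝ) ^ n ≤ K * X.card
  four : ∀ N : Matrix (Fin n) (Fin n) (ZMod p), N ≠ 0 →
    ‖∑ x ∈ X, (ZMod.stdAddChar (trace (N * x)) : ℂ)‖ * Real.sqrt ((p : ℝ) ^ n) ≤ K * X.card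

lemma norm_e (x : ZMod p) : ‖(ZMod.stdAddChar x : ℂ)‖ = 1 := AddChar.norm_apply _ _

lemma conj_e (x : ZMod p) :
    (starRingEnd ℂ) (ZMod.stdAddChar x : ℂ) = ZMod.stdAddChar (-x) := by
  rw [AddChar.map_neg_eq_conj]

/-- Cauchy-Schwarz and completion -/
lemma cs {β : Type} [DecidableEq β] (X : Finset (Matrix (Fin n) (Fin n) (ZMod p))) (E : ℝ) (hE : 0 ≤ E)
    (hX : ∀ N : Matrix (Fin n) (Fin n) (ZMod p), N ≠ 0 →
      ‖∑ x ∈ X, (ZMod.stdAddChar (trace (N * x)) : ℂ)‖ ≤ E)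
    (A : Finset (Matrix (Fin n) (Fin n) (ZMod p))) (hA : A ⊆ X) (B : Finset β)
    (N : β → Matrix (Fin n) (Fin n) (ZMod p)) (R : ℝ)
    (hR : ∀ c, ((B.filter (fun b => N b = c)).card : ℝ) ≤ R) :
    ‖∑ a ∈ A, ∑ b ∈ B, (ZMod.stdAddChar (trace (N b * a)) : ℂ)‖ ^ 2 ≤
      A.card * (B.card * R * X.card + (B.card : ℝ) ^ 2 * E) := by
  set f : Matrix (Fin n) (Fin n) (ZMod p) → ℂ := fun a => ∑ b ∈ B, (ZMod.stdAddChar (trace (N b * a)) : ℂ)
    with hf
  have h1 : ‖∑ a ∈ A, f a‖ ^ 2 ≤ A.card * ∑ a ∈ X, ‖f a‖ ^ 2 := by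
    calc ‖∑ a ∈ A, f a‖ ^ 2 ≤ (∑ a ∈ A, ‖f a‖) ^ 2 :=
          pow_le_pow_left₀ (norm_nonneg _) (norm_sum_le _ _) 2
      _ ≤ A.card * ∑ a ∈ A, ‖f a‖ ^ 2 := sq_sum_le_card_mul_sum_sq
      _ ≤ A.card * ∑ a ∈ X, ‖f a‖ ^ 2 := by
          apply mul_le_mul_of_nonneg_left _ (Nat.cast_nonneg _)
          exact sum_le_sum_of_subset_of_nonneg hA fun _ _ _ => by positivity
  refine h1.trans (mul_le_mul_of_nonneg_left ?_ (Nat.cast_nonneg _))
  have h2 : ((∑ a ∈ X, ‖f a‖ ^ 2 : ℝ) : ℂ) =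
      ∑ b ∈ B, ∑ b' ∈ B, ∑ a ∈ X, (ZMod.stdAddChar (trace ((N b - N b') * a)) : ℂ) := by
    push_cast
    have h3 : ∀ a ∈ X, ((‖f a‖ : ℂ)) ^ 2 =
        ∑ b ∈ B, ∑ b' ∈ B, (ZMod.stdAddChar (trace ((N b - N b') * a)) : ℂ) := by
      intro a _
      rw [← Complex.mul_conj', hf]
      simp only [map_sum]
      rw [sum_mul_sum]
      refine sum_congr rfl fun b _ => sum_congr rfl fun b' _ => ?_
      rw [conj_e, ← AddChar.map_add_eq_mul, Matrix.sub_mul, Matrix.trace_sub, sub_eq_add_neg]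
    rw [sum_congr rfl h3, sum_comm]
    refine sum_congr rfl fun b _ => ?_
    rw [sum_comm]
  have h4 : ∑ a ∈ X, ‖f a‖ ^ 2 = ‖((∑ a ∈ X, ‖f a‖ ^ 2 : ℝ) : ℂ)‖ := by
    rw [Complex.norm_real, Real.norm_eq_abs, abs_of_nonneg (sum_nonneg fun _ _ => by positivity)]
  rw [h4, h2]
  have h5 : ∀ b ∈ B, ∀ b' ∈ B, ‖∑ a ∈ X, (ZMod.stdAddChar (trace ((N b - N b') * a)) : ℂ)‖ ≤
      (if N b' = N b then (X.card : ℝ) else 0) + E := by
    intro b _ b' _
    split_ifs with h6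
    · refine le_add_of_le_of_nonneg ?_ hE
      refine (norm_sum_le _ _).trans ?_
      simp_rw [norm_e]
      rw [sum_const, nsmul_eq_mul, mul_one]
    · rw [zero_add]
      exact hX _ (fun h7 => h6 (sub_eq_zero.1 h7).symm)
  calc ‖∑ b ∈ B, ∑ b' ∈ B, ∑ a ∈ X, (ZMod.stdAddChar (trace ((N b - N b') * a)) : ℂ)‖
      ≤ ∑ b ∈ B, ∑ b' ∈ B, ((if N b' = N b then (X.card : ℝ) else 0) + E) := by
        refine (norm_sum_le _ _).trans (sum_le_sum fun b hb => ?_)
        exact (norm_sum_le _ _).trans (sum_le_sum fun b' hb' => h5 b hb b' hb')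
    _ ≤ ∑ b ∈ B, (R * X.card + B.card * E) := by
        refine sum_le_sum fun b _ => ?_
        rw [sum_add_distrib, ← sum_filter, sum_const, sum_const, nsmul_eq_mul, nsmul_eq_mul]
        exact add_le_add (mul_le_mul_of_nonneg_right (hR _) (Nat.cast_nonneg _)) le_rfl
    _ = B.card * R * X.card + (B.card : ℝ) ^ 2 * E := by
        rw [sum_const, nsmul_eq_mul]
        ring

/-- the numerical part -/
lemma num (K X a b q t S : ℝ) (hK : 0 ≤ K) (hX : 0 < X) (ha : 0 < a) (hb : 0 < b) (hq : 0 < q) (ht : 1 ≤ t)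
    (hab : b ≤ a) (h : X ^ 2 * t ^ 2 ≤ a * b * q ^ 2)
    (hS : S ≤ a * (b * (K * X / q ^ 2) * X + b ^ 2 * (K * X / q))) :
    S * t ≤ 2 * K * (a * b) ^ 2 := by
  have ht0 : 0 < t := by linarith
  have h1 : X * t ≤ a * q := by
    have h2 : (X * t) ^ 2 ≤ (a * q) ^ 2 := by
      calc (X * t) ^ 2 = X ^ 2 * t ^ 2 := by ring
        _ ≤ a * b * q ^ 2 := h
        _ ≤ a * a * q ^ 2 := by gcongr
        _ = (a * q) ^ 2 := by ring
    exact (pow_le_pow_iff_left₀ (by positivity) (by positivity) two_ne_zero).1 h2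
  have h3 : a * (b * (K * X / q ^ 2) * X) * t ≤ K * (a * b) ^ 2 := by
    have h4 : a * (b * (K * X / q ^ 2) * X) * t = K * (a * b) * (X ^ 2 * t / q ^ 2) := by
      field_simp
    rw [h4]
    have h5 : X ^ 2 * t / q ^ 2 ≤ a * b := by
      rw [div_le_iff₀ (by positivity)]
      calc X ^ 2 * t ≤ X ^ 2 * t ^ 2 := by
            apply mul_le_mul_of_nonneg_left _ (by positivity)
            nlinarith
        _ ≤ _ := h
    calc K * (a * b) * (X ^ 2 * t / q ^ 2) ≤ K * (a * b) * (a * b) := by gcongr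
      _ = _ := by ring
  have h6 : a * (b ^ 2 * (K * X / q)) * t ≤ K * (a * b) ^ 2 := by
    have h7 : a * (b ^ 2 * (K * X / q)) * t = K * (a * b ^ 2) * (X * t / q) := by
      field_simp
    rw [h7]
    have h8 : X * t / q ≤ a := by
      rw [div_le_iff₀ hq]
      exact h1
    calc K * (a * b ^ 2) * (X * t / q) ≤ K * (a * b ^ 2) * a := by gcongr
      _ = _ := by ring
  calc S * t ≤ a * (b * (K * X / q ^ 2) * X + b ^ 2 * (K * X / q)) * t :=
        mul_le_mul_of_nonneg_right hS ht0.le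
    _ = a * (b * (K * X / q ^ 2) * X) * t + a * (b ^ 2 * (K * X / q)) * t := by ring
    _ ≤ K * (a * b) ^ 2 + K * (a * b) ^ 2 := add_le_add h3 h6
    _ = _ := by ring

/-- **Products of matrices from two arbitrary sets.** -/
theorem bil {K : ℝ} {X : Finset (Matrix (Fin n) (Fin n) (ZMod p))} (hX : Spread K X)
    (A B : Finset (Matrix (Fin n) (Fin n) (ZMod p))) (hA : A ⊆ X) (hB : B ⊆ X) (hA0 : A.Nonempty)
    (hB0 : B.Nonempty) (t : ℝ) (ht : 1 ≤ t)
    (h : (X.card : ℝ) ^ 2 * t ^ 2 ≤ A.card * B.card * (p : ℝ) ^ n)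
    (M : Matrix (Fin n) (Fin n) (ZMod p)) (hM : M ≠ 0) :
    ‖∑ a ∈ A, ∑ b ∈ B, (ZMod.stdAddChar (trace (M * (a * b))) : ℂ)‖ ^ 2 * t ≤
      2 * K * ((A.card : ℝ) * B.card) ^ 2 := by
  have hp0 : (0 : ℝ) < p := by exact_mod_cast (Fact.out : p.Prime).pos
  set q : ℝ := Real.sqrt ((p : ℝ) ^ n) with hq
  have hq0 : 0 < q := Real.sqrt_pos.2 (by positivity)
  have hq2 : q ^ 2 = (p : ℝ) ^ n := Real.sq_sqrt (by positivity)
  have hK : 0 ≤ K := by linarith [hX.one_le]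
  have hX0 : (0 : ℝ) < X.card := by exact_mod_cast (hA0.mono hA).card_pos
  have hA1 : (0 : ℝ) < A.card := by exact_mod_cast hA0.card_pos
  have hB1 : (0 : ℝ) < B.card := by exact_mod_cast hB0.card_pos
  have hE : ∀ N : Matrix (Fin n) (Fin n) (ZMod p), N ≠ 0 →
      ‖∑ x ∈ X, (ZMod.stdAddChar (trace (N * x)) : ℂ)‖ ≤ K * X.card / q := by
    intro N hN
    rw [le_div_iff₀ hq0]
    exact hX.four N hN
  rcases le_total (B.card : ℝ) A.card with hab | hab
  · have h1 := cs X (K * X.card / q) (by positivity) hE A hA B (fun b => b * M)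
      (K * X.card / q ^ 2) (by
        intro c
        rw [le_div_iff₀ (by positivity), hq2]
        refine le_trans ?_ (hX.right M hM c)
        apply mul_le_mul_of_nonneg_right _ (by positivity)
        exact_mod_cast card_le_card (filter_subset_filter _ hB))
    have e : ∑ a ∈ A, ∑ b ∈ B, (ZMod.stdAddChar (trace (M * (a * b))) : ℂ) =
        ∑ a ∈ A, ∑ b ∈ B, (ZMod.stdAddChar (trace (b * M * a)) : ℂ) := by
      refine sum_congr rfl fun a _ => sum_congr rfl fun b _ => ?_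
      rw [← Matrix.mul_assoc, Matrix.trace_mul_comm, ← Matrix.mul_assoc]
    rw [e]
    exact num K X.card A.card B.card q t _ hK hX0 hA1 hB1 hq0 ht hab (by rw [hq2]; exact h) h1
  · have h1 := cs X (K * X.card / q) (by positivity) hE B hB A (fun a => M * a)
      (K * X.card / q ^ 2) (by
        intro c
        rw [le_div_iff₀ (by positivity), hq2]
        refine le_trans ?_ (hX.left M hM c)
        apply mul_le_mul_of_nonneg_right _ (by positivity)
        exact_mod_cast card_le_card (filter_subset_filter _ hA))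
    have e : ∑ a ∈ A, ∑ b ∈ B, (ZMod.stdAddChar (trace (M * (a * b))) : ℂ) =
        ∑ b ∈ B, ∑ a ∈ A, (ZMod.stdAddChar (trace (M * a * b)) : ℂ) := by
      rw [sum_comm]
      refine sum_congr rfl fun a _ => sum_congr rfl fun b _ => ?_
      rw [Matrix.mul_assoc]
    rw [e]
    have h2 := num K X.card B.card A.card q t _ hK hX0 hB1 hA1 hq0 ht hab
      (by rw [hq2, mul_comm (B.card : ℝ)]; exact h) h1
    rw [mul_comm (B.card : ℝ)] at h2
    exact h2

end Pool.Agent.J4.H53.PM
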