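import Pool.Agent.J4.H53.PM.Spread

set_option autoImplicit false

/-! # The matrices of determinant one act transitively on the nonzero vectors -/

namespace Pool.Agent.J4.H53.PM

open Finset Matrix

variable {p : ℕ} [Fact p.Prime] {n : ℕ}

lemma trans_col (hn : 2 ≤ n) (w w' : Fin n → ZMod p) (hw : w ≠ 0) (hw' : w' ≠ 0) :
    ∃ g : Matrix (Fin n) (Fin n) (ZMod p), g.det = 1 ∧ g *ᵥ w = w' := by
  have hi : (⟨0, by omega⟩ : Fin n) ≠ ⟨1, by omega⟩ := by simp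
  obtain ⟨i, j, hij⟩ : ∃ i j : Fin n, i ≠ j := ⟨_, _, hi⟩
  have he : (Pi.single i 1 : Fin n → ZMod p) ≠ 0 := by
    intro h
    have := congrFun h i
    simp at this
  obtain ⟨g1, h1⟩ := MulAction.exists_smul_eq (Matrix.SpecialLinearGroup (Fin n) (ZMod p))
    (Projectivization.mk (ZMod p) _ he) (Projectivization.mk (ZMod p) _ hw)
  obtain ⟨g2, h2⟩ := MulAction.exists_smul_eq (Matrix.SpecialLinearGroup (Fin n) (ZMod p))
    (Projectivization.mk (ZMod p) _ he) (Projectivization.mk (ZMod p) _ hw')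
  rw [Projectivization.smul_mk, Projectivization.mk_eq_mk_iff] at h1 h2
  obtain ⟨a, ha⟩ := h1
  obtain ⟨b, hb⟩ := h2
  -- a • w = g1 • e, b • w' = g2 • e
  have hc : ((a : ZMod p) * (b : ZMod p)⁻¹) ≠ 0 := mul_ne_zero a.ne_zero (inv_ne_zero b.ne_zero)
  set d := Matrix.SpecialLinearGroup.diag2n hij ((a : ZMod p) * (b : ZMod p)⁻¹) hc with hd
  have hde : d • (Pi.single i 1 : Fin n → ZMod p) = ((a : ZMod p) * (b : ZMod p)⁻¹) • Pi.single i 1 := by
    funext k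
    rw [Matrix.SpecialLinearGroup.smul_def, Matrix.SpecialLinearGroup.diag2n_coe, Matrix.smul_eq_mulVec,
      Matrix.mulVec_diagonal, Pi.smul_apply, smul_eq_mul]
    by_cases hk : k = i
    · rw [if_pos hk]
    · rw [Pi.single_eq_of_ne hk, mul_zero, mul_zero]
  have hw2 : g1⁻¹ • w = (a : ZMod p)⁻¹ • (Pi.single i 1 : Fin n → ZMod p) := by
    rw [inv_smul_eq_iff, smul_comm, ← ha, Units.smul_def, smul_smul, inv_mul_cancel₀ a.ne_zero, one_smul]
  refine ⟨((g2 * d * g1⁻¹ : Matrix.SpecialLinearGroup (Fin n) (ZMod p)) : Matrix (Fin n) (Fin n) (ZMod p)),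
    (g2 * d * g1⁻¹).2, ?_⟩
  have h3 : (g2 * d * g1⁻¹) • w = w' := by
    rw [mul_smul, mul_smul, hw2, smul_comm d, hde, smul_smul, smul_comm g2, ← hb, Units.smul_def, smul_smul]
    rw [show ((a : ZMod p)⁻¹ * (a * (b : ZMod p)⁻¹)) * b = 1 by
      rw [← mul_assoc, inv_mul_cancel₀ a.ne_zero, one_mul, inv_mul_cancel₀ b.ne_zero], one_smul]
  rw [Matrix.SpecialLinearGroup.smul_def, Matrix.smul_eq_mulVec] at h3
  exact h3

lemma trans_row (hn : 2 ≤ n) (w w' : Fin n → ZMod p) (hw : w ≠ 0) (hw' : w' ≠ 0) :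
    ∃ g : Matrix (Fin n) (Fin n) (ZMod p), g.det = 1 ∧ w ᵥ* g = w' := by
  obtain ⟨g, h1, h2⟩ := trans_col hn w w' hw hw'
  exact ⟨gᵀ, by rw [Matrix.det_transpose, h1], by rw [Matrix.vecMul_transpose, h2]⟩

end Pool.Agent.J4.H53.PM
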